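import Pool.Agent.L0h72.Kag.Two

/-!
The WSK dynamics for 3 colours on the periodic kagome lattice `K_n`, `n ≥ 2`, is ergodic exactly
for `n = 2`.

The 3-colourings of `K_n` are the proper 3-edge-colourings of the periodic honeycomb graph. A Kempe
change exchanges two colours on a cycle, so that it changes the chirality of all vertices of a
cycle; as the cycle is even, the product of all chiralities is invariant. For each `n ≥ 3` we give
two colourings for which these products differ.
-/

set_option autoImplicit false

namespace Pool.Agent.Results.MP_11305c_co.KagomeThreeColours

open Pool.Agent.H411R2.WSK Pool.Agent.L0h72.Kag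

/-- For all `n ≥ 2`, the WSK dynamics for 3 colours on `K_n` is ergodic if and only if `n = 2`. -/
theorem result : ∀ n : ℕ, 2 ≤ n → (WSKErgodic (kagome n) 3 ↔ n = 2) := by
  intro n hn
  constructor
  · intro h
    by_contra hne
    exact kagome_not_ergodic (by omega) h
  · rintro rfl
    exact kagome_two

end Pool.Agent.Results.MP_11305c_co.KagomeThreeColours
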