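import Mathlib

/-!
# Two variable indices that agree for three different exponents

For the graph obtained from the cocktail party graph with `10000` pairs by joining all its vertices to
the first vertex of a path with `625` vertices, the difference `Sz^α - W^α` is negative at `α = 0`,
positive at `α = 1/4`, negative at `α = 3/4` and positive at `α = 1`. So it has at least three real
zeros.
-/

set_option autoImplicit false

namespace Pool.Agent.Results.MP_dd6dde_co.ThreeZeros

open Finset SimpleGraph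

section defs

variable {V : Type} [Fintype V]

/-- `n_u(e)` for the edge `e = uv`: the number of vertices which are closer to `u` than to `v`. -/
noncomputable def closer (G : SimpleGraph V) (u v : V) : ℕ :=
  {w : V | G.dist w u < G.dist w v}.ncard

open Classical in
/-- The variable Wiener index `W^α(G)`: the sum of `d(x,y)^α` over all unordered pairs `{x,y}`,
`x ≠ y` (half the sum over the ordered pairs). -/
noncomputable def wiener (G : SimpleGraph V) (α : ℝ) : ℝ :=
  (1 / 2) * ∑ x : V, ∑ y : V, if x ≠ y then (G.dist x y : ℝ) ^ α else 0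

open Classical in
/-- The variable Szeged index `Sz^α(G)`: the sum of `(n_u(e) n_v(e))^α` over all edges `e = uv`
(half the sum over the ordered pairs of adjacent vertices). -/
noncomputable def szeged (G : SimpleGraph V) (α : ℝ) : ℝ :=
  (1 / 2) * ∑ u : V, ∑ v : V,
    if G.Adj u v then ((closer G u v : ℝ) * (closer G v u : ℝ)) ^ α else 0

end defs

/-! ### Distances -/

theorem dist_of {V : Type} (G : SimpleGraph V) (f : V → V → ℕ) (h0 : ∀ u, f u u = 0)
    (h1 : ∀ u x y, G.Adj x y → f u y ≤ f u x + 1)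
    (h2 : ∀ u v, u ≠ v → ∃ w, G.Adj w v ∧ f u w + 1 = f u v) :
    G.Preconnected ∧ ∀ u v, G.dist u v = f u v := by
  have key : ∀ (k : ℕ) (u v : V), f u v = k → ∃ p : G.Walk u v, p.length = k := by
    intro k
    induction k with
    | zero =>
      intro u v h
      by_cases huv : u = v
      · subst huv
        exact ⟨Walk.nil, rfl⟩
      · obtain ⟨w, -, hw⟩ := h2 u v huv
        omega
    | succ k ih =>
      intro u v h
      have huv : u ≠ v := by
        rintro rfl
        rw [h0] at h
        omega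
      obtain ⟨w, hw1, hw2⟩ := h2 u v huv
      obtain ⟨p, hp⟩ := ih u w (by omega)
      exact ⟨p.concat hw1, by rw [Walk.length_concat, hp]⟩
  have low : ∀ (u v : V) (p : G.Walk u v) (z : V), f z v ≤ f z u + p.length := by
    intro u v p
    induction p with
    | nil => intro z; simp
    | cons hadj p ih =>
      intro z
      have := ih z
      have := h1 z _ _ hadj
      rw [Walk.length_cons]
      omega
  refine ⟨fun u v => ?_, fun u v => ?_⟩
  · obtain ⟨p, -⟩ := key _ u v rfl
    exact ⟨p⟩
  · obtain ⟨p, hp⟩ := key _ u v rfl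
    apply le_antisymm
    · rw [← hp]
      exact SimpleGraph.dist_le p
    · obtain ⟨q, hq⟩ := SimpleGraph.Reachable.exists_walk_length_eq_dist ⟨p⟩
      have := low u v q u
      rw [h0, hq] at this
      omega

/-! ### The graph: a cocktail party graph joined to the end of a path -/

/-- the vertices: `m` pairs, and the vertices `0, …, D` of a path -/
abbrev Vtx (m D : ℕ) : Type := (Fin m × Bool) ⊕ Fin (D + 1)

/-- two vertices in different pairs are adjacent, all vertices in the pairs are adjacent to the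
vertex `0` of the path, and consecutive vertices of the path are adjacent -/
def gr (m D : ℕ) : SimpleGraph (Vtx m D) where
  Adj x y := match x, y with
    | .inl a, .inl b => a.1 ≠ b.1
    | .inl _, .inr j => j.val = 0
    | .inr i, .inl _ => i.val = 0
    | .inr i, .inr j => i.val + 1 = j.val ∨ j.val + 1 = i.val
  symm := ⟨by
    rintro (a | i) (b | j) h
    · exact Ne.symm h
    · exact h
    · exact h
    · exact Or.symm h⟩
  loopless := ⟨by
    rintro (a | i) h
    · exact h rfl
    · rcases h with h | h <;> omega⟩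

/-- the distance function -/
def df (m D : ℕ) (x y : Vtx m D) : ℕ :=
  match x, y with
    | .inl a, .inl b => if a = b then 0 else if a.1 = b.1 then 2 else 1
    | .inl _, .inr j => j.val + 1
    | .inr i, .inl _ => i.val + 1
    | .inr i, .inr j => (i.val - j.val) + (j.val - i.val)

theorem dist_gr (m D : ℕ) :
    (gr m D).Preconnected ∧ ∀ u v, (gr m D).dist u v = df m D u v := by
  apply dist_of
  · rintro (a | i)
    · simp [df]
    · simp [df]
  · rintro (a | i) (b | j) (c | k) h
    · have h' : b.1 ≠ c.1 := h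
      simp only [df]
      by_cases h3 : a = c
      · simp [h3]
      · by_cases h4 : a = b
        · subst h4
          simp [h3, h']
        · simp only [h3, h4, if_false]
          split_ifs <;> omega
    · have h' : k.val = 0 := h
      simp only [df]
      omega
    · have h' : j.val = 0 := h
      simp only [df]
      split_ifs <;> omega
    · have h' : j.val + 1 = k.val ∨ k.val + 1 = j.val := h
      simp only [df]
      omega
    · simp only [df]; omega
    · have h' : k.val = 0 := h
      simp only [df]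
      omega
    · have h' : j.val = 0 := h
      simp only [df]
      omega
    · have h' : j.val + 1 = k.val ∨ k.val + 1 = j.val := h
      simp only [df]
      omega
  · rintro (a | i) (b | j) h
    · have hab : a ≠ b := fun h' => h (by rw [h'])
      by_cases h3 : a.1 = b.1
      · refine ⟨.inr 0, ?_, ?_⟩
        · show (0 : Fin (D + 1)).val = 0
          rfl
        · simp [df, hab, h3]
      · refine ⟨.inl a, h3, ?_⟩
        simp [df, hab, h3]
    · by_cases h3 : j.val = 0
      · exact ⟨.inl a, h3, by simp [df, h3]⟩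
      · refine ⟨.inr ⟨j.val - 1, by omega⟩, Or.inl ?_, ?_⟩
        · simp only; omega
        · simp only [df]; omega
    · by_cases h3 : i.val = 0
      · exact ⟨.inr i, h3, by simp [df, h3]⟩
      · exact ⟨.inr 0, rfl, by simp [df]⟩
    · have hij : i.val ≠ j.val := fun h' => h (by rw [Fin.ext h'])
      rcases lt_or_gt_of_ne hij with h3 | h3
      · refine ⟨.inr ⟨j.val - 1, by omega⟩, Or.inl ?_, ?_⟩
        · simp only; omega
        · simp only [df]; omega
      · refine ⟨.inr ⟨j.val + 1, by omega⟩, Or.inr ?_, ?_⟩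
        · simp only
        · simp only [df]; omega

/-! ### The numbers of closer vertices -/

theorem dist_eq {m D : ℕ} (u v : Vtx m D) : (gr m D).dist u v = df m D u v := (dist_gr m D).2 u v

theorem closer_inl {m D : ℕ} {a b : Fin m × Bool} (h : a.1 ≠ b.1) :
    closer (gr m D) (.inl a) (.inl b) = 2 := by
  unfold closer
  have h1 : {w : Vtx m D | (gr m D).dist w (.inl a) < (gr m D).dist w (.inl b)} =
      {.inl a, .inl (b.1, !b.2)} := by
    ext w
    simp only [Set.mem_setOf_eq, dist_eq, Set.mem_insert_iff, Set.mem_singleton_iff]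
    rcases w with c | k
    · simp only [df, Sum.inl.injEq]
      obtain ⟨a1, a2⟩ := a
      obtain ⟨b1, b2⟩ := b
      obtain ⟨c1, c2⟩ := c
      simp only at h
      simp only [Prod.mk.injEq]
      by_cases h3 : c1 = a1 <;> by_cases h4 : c1 = b1
      · exact absurd (h3.symm.trans h4) h
      · cases c2 <;> cases a2 <;> simp [h3, h4, h, Ne.symm h]
      · cases c2 <;> cases b2 <;> simp [h3, h4, h, Ne.symm h]
      · simp [h3, h4]
    · simp [df]
  rw [h1, Set.ncard_pair]
  intro h2
  rw [Sum.inl.injEq] at h2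
  exact h (by rw [h2])

theorem closer_inl_inr {m D : ℕ} {a : Fin m × Bool} {j : Fin (D + 1)} (h : j.val = 0) :
    closer (gr m D) (.inl a) (.inr j) = 1 := by
  unfold closer
  have h1 : {w : Vtx m D | (gr m D).dist w (.inl a) < (gr m D).dist w (.inr j)} = {.inl a} := by
    ext w
    simp only [Set.mem_setOf_eq, dist_eq, Set.mem_singleton_iff]
    rcases w with c | k
    · simp only [df, Sum.inl.injEq, h]
      split_ifs with h3 h4
      · simp [h3]
      · simp [h3]
      · simp [h3]
    · simp only [df, reduceCtorEq, iff_false]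
      omega
  rw [h1, Set.ncard_singleton]

theorem closer_inr_inl {m D : ℕ} {a : Fin m × Bool} {j : Fin (D + 1)} (h : j.val = 0) :
    closer (gr m D) (.inr j) (.inl a) = D + 2 := by
  unfold closer
  have h1 : {w : Vtx m D | (gr m D).dist w (.inr j) < (gr m D).dist w (.inl a)} =
      insert (.inl (a.1, !a.2)) (Set.range Sum.inr) := by
    ext w
    simp only [Set.mem_setOf_eq, dist_eq, Set.mem_insert_iff, Set.mem_range]
    rcases w with c | k
    · simp only [df, Sum.inl.injEq, h, reduceCtorEq, exists_false, or_false]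
      obtain ⟨a1, a2⟩ := a
      obtain ⟨c1, c2⟩ := c
      simp only [Prod.mk.injEq]
      by_cases h3 : c1 = a1
      · cases c2 <;> cases a2 <;> simp [h3]
      · simp [h3]
    · simp only [df, reduceCtorEq, Sum.inr.injEq, exists_eq, or_true, iff_true]
      omega
  rw [h1, Set.ncard_insert_of_notMem (by simp), ← Set.image_univ,
    Set.ncard_image_of_injective _ Sum.inr_injective, Set.ncard_univ, Nat.card_fin]

theorem closer_inr_succ {m D : ℕ} {i j : Fin (D + 1)} (h : i.val + 1 = j.val) :
    closer (gr m D) (.inr i) (.inr j) = 2 * m + i.val + 1 := by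
  unfold closer
  have h1 : {w : Vtx m D | (gr m D).dist w (.inr i) < (gr m D).dist w (.inr j)} =
      Sum.inl '' Set.univ ∪ Sum.inr '' (Set.Iic i) := by
    ext w
    simp only [Set.mem_setOf_eq, dist_eq]
    rcases w with c | k
    · simp only [df, Set.mem_union, Set.mem_image, Set.mem_univ, true_and, Sum.inl.injEq, exists_eq,
        true_or, iff_true]
      omega
    · simp only [df, Set.mem_union, Set.mem_image, reduceCtorEq, and_false, exists_false,
        Sum.inr.injEq, exists_eq_right, Set.mem_Iic, false_or, Fin.le_def]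
      omega
  have h2 : Disjoint (Sum.inl '' (Set.univ : Set (Fin m × Bool)))
      ((Sum.inr : Fin (D + 1) → Vtx m D) '' (Set.Iic i)) := by
    rw [Set.disjoint_left]
    rintro w ⟨a, -, rfl⟩ ⟨b, -, hb⟩
    exact Sum.inr_ne_inl hb
  rw [h1, Set.ncard_union_eq h2 (Set.toFinite _) (Set.toFinite _),
    Set.ncard_image_of_injective _ Sum.inl_injective,
    Set.ncard_image_of_injective _ Sum.inr_injective, Set.ncard_univ, Nat.card_prod,
    Nat.card_fin, Nat.card_eq_fintype_card, Fintype.card_bool]
  have h3 : (Set.Iic i).ncard = i.val + 1 := by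
    rw [← Finset.coe_Iic, Set.ncard_coe_finset, Fin.card_Iic]
  rw [h3]
  ring

theorem closer_inr_pred {m D : ℕ} {i j : Fin (D + 1)} (h : i.val + 1 = j.val) :
    closer (gr m D) (.inr j) (.inr i) = D - i.val := by
  unfold closer
  have h1 : {w : Vtx m D | (gr m D).dist w (.inr j) < (gr m D).dist w (.inr i)} =
      Sum.inr '' (Set.Ici j) := by
    ext w
    simp only [Set.mem_setOf_eq, dist_eq]
    rcases w with c | k
    · simp only [df, Set.mem_image, reduceCtorEq, and_false, exists_false, iff_false]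
      omega
    · simp only [df, Set.mem_image, Sum.inr.injEq, exists_eq_right, Set.mem_Ici, Fin.le_def]
      omega
  rw [h1, Set.ncard_image_of_injective _ Sum.inr_injective, ← Finset.coe_Ici,
    Set.ncard_coe_finset, Fin.card_Ici]
  omega

/-! ### Continuity -/

theorem cont {V : Type} [Fintype V] (G : SimpleGraph V) (hG : G.Preconnected) :
    Continuous (fun α : ℝ => szeged G α - wiener G α) := by
  unfold szeged wiener
  refine Continuous.sub ?_ ?_
  · refine continuous_const.mul (continuous_finset_sum _ fun u _ => continuous_finset_sum _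
      fun v _ => ?_)
    by_cases h : G.Adj u v
    · simp only [h, if_true]
      have key : ∀ u v : V, G.Adj u v → (closer G u v : ℝ) ≠ 0 := by
        intro u v h
        have h1 : u ∈ {w : V | G.dist w u < G.dist w v} := by
          show G.dist u u < G.dist u v
          rw [SimpleGraph.dist_self, SimpleGraph.dist_eq_one_iff_adj.2 h]
          exact one_pos
        have h2 : 0 < closer G u v := by
          unfold closer
          rw [Set.ncard_pos (Set.toFinite _)]
          exact ⟨u, h1⟩
        exact_mod_cast h2.ne'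
      exact Real.continuous_const_rpow (mul_ne_zero (key u v h) (key v u h.symm))
    · simp only [h, if_false]
      exact continuous_const
  · refine continuous_const.mul (continuous_finset_sum _ fun u _ => continuous_finset_sum _
      fun v _ => ?_)
    by_cases h : u ≠ v
    · simp only [ne_eq, h, not_false_iff, if_true]
      have h1 : G.dist u v ≠ 0 := ((hG u v).pos_dist_of_ne h).ne'
      exact Real.continuous_const_rpow (by exact_mod_cast h1)
    · simp only [h, if_false]
      exact continuous_const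

/-! ### The sums -/

theorem sum_pairs {m : ℕ} (a : Fin m × Bool) (x y : ℝ) :
    ∑ b : Fin m × Bool, (if a = b then 0 else if a.1 = b.1 then x else y) =
      x + (2 * m - 2) * y := by
  rw [Fintype.sum_prod_type]
  have h1 : ∀ c : Fin m, (∑ d : Bool, (if a = (c, d) then (0 : ℝ) else
      if a.1 = (c, d).1 then x else y)) = (if a.1 = c then x - 2 * y else 0) + 2 * y := by
    intro c
    obtain ⟨a1, a2⟩ := a
    simp only [Prod.mk.injEq]
    by_cases h : a1 = c
    · cases a2 <;> simp [h]
    · simp [h]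
      try ring
  rw [Finset.sum_congr rfl (fun c _ => h1 c), Finset.sum_add_distrib, Finset.sum_ite_eq,
    if_pos (Finset.mem_univ _), Finset.sum_const, Finset.card_univ, Fintype.card_fin, nsmul_eq_mul]
  ring

/-- the contribution of the path to the Szeged index -/
noncomputable def R (m D : ℕ) (α : ℝ) : ℝ :=
  ∑ i ∈ range D, (((2 * m + i + 1 : ℕ) : ℝ) * ((D - i : ℕ) : ℝ)) ^ α

/-- the distances from a vertex outside the path to the path -/
noncomputable def T (D : ℕ) (α : ℝ) : ℝ := ∑ i ∈ range (D + 1), ((i + 1 : ℕ) : ℝ) ^ α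

/-- the distances on the path (ordered pairs) -/
noncomputable def S (D : ℕ) (α : ℝ) : ℝ :=
  ∑ i ∈ range (D + 1), ∑ j ∈ range (D + 1),
    if i ≠ j then (((i - j) + (j - i) : ℕ) : ℝ) ^ α else 0

theorem wiener_gr (m D : ℕ) (α : ℝ) :
    wiener (gr m D) α = m * (2 * m - 2) + m * 2 ^ α + 2 * m * T D α + (1 / 2) * S D α := by
  unfold wiener
  rw [Fintype.sum_sum_type]
  simp only [Fintype.sum_sum_type, dist_eq]
  have h1 : ∀ a b : Fin m × Bool, (if (Sum.inl a : Vtx m D) ≠ Sum.inl b then
      ((df m D (.inl a) (.inl b) : ℕ) : ℝ) ^ α else 0) =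
      if a = b then 0 else if a.1 = b.1 then (2 : ℝ) ^ α else 1 := by
    intro a b
    simp only [df, ne_eq, Sum.inl.injEq]
    by_cases h : a = b
    · simp [h]
    · by_cases h' : a.1 = b.1
      · simp [h, h']
      · simp [h, h']
  have h2 : ∀ (a : Fin m × Bool) (j : Fin (D + 1)), (if (Sum.inl a : Vtx m D) ≠ Sum.inr j then
      ((df m D (.inl a) (.inr j) : ℕ) : ℝ) ^ α else 0) = ((j.val + 1 : ℕ) : ℝ) ^ α := by
    intro a j
    simp [df]
  have h3 : ∀ (i : Fin (D + 1)) (b : Fin m × Bool), (if (Sum.inr i : Vtx m D) ≠ Sum.inl b then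
      ((df m D (.inr i) (.inl b) : ℕ) : ℝ) ^ α else 0) = ((i.val + 1 : ℕ) : ℝ) ^ α := by
    intro a j
    simp [df]
  have h4 : ∀ (i j : Fin (D + 1)), (if (Sum.inr i : Vtx m D) ≠ Sum.inr j then
      ((df m D (.inr i) (.inr j) : ℕ) : ℝ) ^ α else 0) =
      if i.val ≠ j.val then ((((i.val - j.val) + (j.val - i.val) : ℕ)) : ℝ) ^ α else 0 := by
    intro i j
    simp only [df, ne_eq, Sum.inr.injEq, Fin.ext_iff]
  simp only [h1, h2, h3, h4, Finset.sum_add_distrib, sum_pairs]
  have h5 : ∑ j : Fin (D + 1), ((j.val + 1 : ℕ) : ℝ) ^ α = T D α := by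
    rw [T, Fin.sum_univ_eq_sum_range (fun k => ((k + 1 : ℕ) : ℝ) ^ α)]
  have h6 : ∑ i : Fin (D + 1), ∑ j : Fin (D + 1), (if i.val ≠ j.val then
      ((((i.val - j.val) + (j.val - i.val) : ℕ)) : ℝ) ^ α else 0) = S D α := by
    rw [S, ← Fin.sum_univ_eq_sum_range (fun k => ∑ j ∈ range (D + 1),
      if k ≠ j then (((k - j) + (j - k) : ℕ) : ℝ) ^ α else 0)]
    refine Finset.sum_congr rfl fun i _ => ?_
    rw [Fin.sum_univ_eq_sum_range (fun j => if i.val ≠ j then
      ((((i.val - j) + (j - i.val) : ℕ)) : ℝ) ^ α else 0)]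
  rw [h5, h6, Finset.sum_comm (s := (univ : Finset (Fin (D + 1))))]
  simp only [h5, Finset.sum_const, Finset.card_univ, Fintype.card_prod, Fintype.card_fin,
    Fintype.card_bool, nsmul_eq_mul]
  push_cast
  ring

theorem szeged_gr (m D : ℕ) (α : ℝ) :
    szeged (gr m D) α = m * (2 * m - 2) * 4 ^ α + 2 * m * (D + 2) ^ α + R m D α := by
  classical
  unfold szeged
  rw [Fintype.sum_sum_type]
  simp only [Fintype.sum_sum_type]
  have h1 : ∀ a b : Fin m × Bool, (if (gr m D).Adj (.inl a) (.inl b) then
      ((closer (gr m D) (.inl a) (.inl b) : ℝ) * (closer (gr m D) (.inl b) (.inl a) : ℝ)) ^ α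
        else 0) =
      if a = b then 0 else if a.1 = b.1 then 0 else (4 : ℝ) ^ α := by
    intro a b
    have hadj : (gr m D).Adj (.inl a) (.inl b) ↔ a.1 ≠ b.1 := Iff.rfl
    by_cases h : a.1 = b.1
    · rw [if_neg (by rw [hadj]; exact fun h' => h' h)]
      simp [h]
    · have hab : a ≠ b := fun h' => h (by rw [h'])
      rw [if_pos (hadj.2 h), closer_inl h, closer_inl (Ne.symm h)]
      simp only [hab, h, if_false]
      norm_num
  have h2 : ∀ (a : Fin m × Bool) (j : Fin (D + 1)), (if (gr m D).Adj (.inl a) (.inr j) then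
      ((closer (gr m D) (.inl a) (.inr j) : ℝ) * (closer (gr m D) (.inr j) (.inl a) : ℝ)) ^ α
        else 0) = if j.val = 0 then ((D : ℝ) + 2) ^ α else 0 := by
    intro a j
    have hadj : (gr m D).Adj (.inl a) (.inr j) ↔ j.val = 0 := Iff.rfl
    by_cases h : j.val = 0
    · rw [if_pos (hadj.2 h), closer_inl_inr h, closer_inr_inl h, if_pos h]
      push_cast
      rw [one_mul]
    · rw [if_neg (by rw [hadj]; exact h), if_neg h]
  have h3 : ∀ (i : Fin (D + 1)) (b : Fin m × Bool), (if (gr m D).Adj (.inr i) (.inl b) then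
      ((closer (gr m D) (.inr i) (.inl b) : ℝ) * (closer (gr m D) (.inl b) (.inr i) : ℝ)) ^ α
        else 0) = if i.val = 0 then ((D : ℝ) + 2) ^ α else 0 := by
    intro i b
    have hadj : (gr m D).Adj (.inr i) (.inl b) ↔ i.val = 0 := Iff.rfl
    by_cases h : i.val = 0
    · rw [if_pos (hadj.2 h), closer_inl_inr h, closer_inr_inl h, if_pos h]
      push_cast
      rw [mul_one]
    · rw [if_neg (by rw [hadj]; exact h), if_neg h]
  have h4 : ∀ (i j : Fin (D + 1)), (if (gr m D).Adj (.inr i) (.inr j) then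
      ((closer (gr m D) (.inr i) (.inr j) : ℝ) * (closer (gr m D) (.inr j) (.inr i) : ℝ)) ^ α
        else 0) =
      (if i.val + 1 = j.val then (((2 * m + i.val + 1 : ℕ) : ℝ) * ((D - i.val : ℕ) : ℝ)) ^ α
        else 0) +
      (if j.val + 1 = i.val then (((2 * m + j.val + 1 : ℕ) : ℝ) * ((D - j.val : ℕ) : ℝ)) ^ α
        else 0) := by
    intro i j
    have hadj : (gr m D).Adj (.inr i) (.inr j) ↔ (i.val + 1 = j.val ∨ j.val + 1 = i.val) :=
      Iff.rfl
    by_cases h : i.val + 1 = j.val
    · rw [if_pos (hadj.2 (Or.inl h)), if_pos h, if_neg (by omega), closer_inr_succ h,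
        closer_inr_pred h, add_zero]
    · by_cases h' : j.val + 1 = i.val
      · rw [if_pos (hadj.2 (Or.inr h')), if_neg h, if_pos h', closer_inr_succ h',
          closer_inr_pred h', zero_add, mul_comm]
      · rw [if_neg (by rw [hadj]; exact fun h'' => h''.elim h h'), if_neg h, if_neg h', add_zero]
  simp only [h1, h2, h3, h4, Finset.sum_add_distrib, sum_pairs]
  have h5 : ∑ j : Fin (D + 1), (if j.val = 0 then ((D : ℝ) + 2) ^ α else 0) = ((D : ℝ) + 2) ^ α := by
    rw [Fin.sum_univ_eq_sum_range (fun k => if k = 0 then ((D : ℝ) + 2) ^ α else 0),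
      Finset.sum_ite_eq', if_pos (by simp)]
  have h6 : ∑ i : Fin (D + 1), ∑ j : Fin (D + 1), (if i.val + 1 = j.val then
      (((2 * m + i.val + 1 : ℕ) : ℝ) * ((D - i.val : ℕ) : ℝ)) ^ α else 0) = R m D α := by
    have h7 : ∀ i : Fin (D + 1), ∑ j : Fin (D + 1), (if i.val + 1 = j.val then
      (((2 * m + i.val + 1 : ℕ) : ℝ) * ((D - i.val : ℕ) : ℝ)) ^ α else 0) =
        if i.val < D then (((2 * m + i.val + 1 : ℕ) : ℝ) * ((D - i.val : ℕ) : ℝ)) ^ α else 0 := by
      intro i
      rw [Fin.sum_univ_eq_sum_range (fun k => if i.val + 1 = k then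
        (((2 * m + i.val + 1 : ℕ) : ℝ) * ((D - i.val : ℕ) : ℝ)) ^ α else 0), Finset.sum_ite_eq]
      simp
    rw [Finset.sum_congr rfl (fun i _ => h7 i), Fin.sum_univ_eq_sum_range (fun k => if k < D then
        (((2 * m + k + 1 : ℕ) : ℝ) * ((D - k : ℕ) : ℝ)) ^ α else 0), Finset.sum_range_succ,
      if_neg (lt_irrefl _), add_zero, R]
    refine Finset.sum_congr rfl fun k hk => ?_
    rw [if_pos (Finset.mem_range.1 hk)]
  have h8 : ∑ i : Fin (D + 1), ∑ j : Fin (D + 1), (if j.val + 1 = i.val then
      (((2 * m + j.val + 1 : ℕ) : ℝ) * ((D - j.val : ℕ) : ℝ)) ^ α else 0) = R m D α := by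
    rw [Finset.sum_comm]
    exact h6
  rw [h6, h8, Finset.sum_comm (s := (univ : Finset (Fin (D + 1))))]
  simp only [h5, Finset.sum_const, Finset.card_univ, Fintype.card_prod, Fintype.card_fin,
    Fintype.card_bool, nsmul_eq_mul]
  push_cast
  ring

/-! ### Estimates for `m = 10000` pairs and a path with `625` vertices -/

theorem rpow_quarter {x y : ℝ} (hx : 0 ≤ x) (hy : 0 ≤ y) (h : x ≤ y ^ 4) :
    x ^ (1 / 4 : ℝ) ≤ y := by
  calc x ^ (1 / 4 : ℝ) ≤ (y ^ 4) ^ (1 / 4 : ℝ) := Real.rpow_le_rpow hx h (by norm_num)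
    _ = y := by
      rw [← Real.rpow_natCast, ← Real.rpow_mul hy]
      norm_num

theorem le_rpow_quarter {x y : ℝ} (hy : 0 ≤ y) (h : y ^ 4 ≤ x) :
    y ≤ x ^ (1 / 4 : ℝ) := by
  calc y = (y ^ 4) ^ (1 / 4 : ℝ) := by
        rw [← Real.rpow_natCast, ← Real.rpow_mul hy]
        norm_num
    _ ≤ x ^ (1 / 4 : ℝ) := Real.rpow_le_rpow (by positivity) h (by norm_num)

theorem rpow_three {x : ℝ} (hx : 0 ≤ x) : x ^ (3 / 4 : ℝ) = (x ^ (1 / 4 : ℝ)) ^ 3 := by
  rw [← Real.rpow_natCast (x ^ (1 / 4 : ℝ)) 3, ← Real.rpow_mul hx]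
  norm_num

theorem rpow_three_le {x y : ℝ} (hx : 0 ≤ x) (hy : 0 ≤ y) (h : x ≤ y ^ 4) :
    x ^ (3 / 4 : ℝ) ≤ y ^ 3 := by
  rw [rpow_three hx]
  exact pow_le_pow_left₀ (by positivity) (rpow_quarter hx hy h) 3

/-- the difference of the two indices of the graph -/
theorem diff_eq (α : ℝ) : szeged (gr 10000 624) α - wiener (gr 10000 624) α =
    199980000 * 4 ^ α + 20000 * 626 ^ α + R 10000 624 α -
      (199980000 + 10000 * 2 ^ α + 20000 * T 624 α + (1 / 2) * S 624 α) := by
  rw [szeged_gr, wiener_gr]
  norm_num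

theorem S_nonneg (D : ℕ) (α : ℝ) : 0 ≤ S D α := by
  unfold S
  refine Finset.sum_nonneg fun i _ => Finset.sum_nonneg fun j _ => ?_
  split_ifs
  · positivity
  · exact le_rfl

theorem at_zero : szeged (gr 10000 624) 0 - wiener (gr 10000 624) 0 < 0 := by
  rw [diff_eq]
  have h1 := S_nonneg 624 0
  have h2 : R 10000 624 0 = 624 := by simp [R]
  have h3 : T 624 0 = 625 := by simp [T]
  rw [h2, h3, Real.rpow_zero, Real.rpow_zero, Real.rpow_zero]
  linarith

theorem at_quarter :
    0 < szeged (gr 10000 624) (1 / 4) - wiener (gr 10000 624) (1 / 4) := by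
  rw [diff_eq]
  have h1 : (7 / 5 : ℝ) ≤ 4 ^ (1 / 4 : ℝ) := le_rpow_quarter (by norm_num) (by norm_num)
  have h2 : (2 : ℝ) ^ (1 / 4 : ℝ) ≤ 2 := rpow_quarter (by norm_num) (by norm_num) (by norm_num)
  have h3 : (0 : ℝ) ≤ 626 ^ (1 / 4 : ℝ) := by positivity
  have h4 : 0 ≤ R 10000 624 (1 / 4) := by
    unfold R
    exact Finset.sum_nonneg fun i _ => by positivity
  have h5 : T 624 (1 / 4) ≤ 3125 := by
    unfold T
    calc ∑ i ∈ range (624 + 1), ((i + 1 : ℕ) : ℝ) ^ (1 / 4 : ℝ)
        ≤ ∑ _i ∈ range (624 + 1), (5 : ℝ) := by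
          refine Finset.sum_le_sum fun i hi => ?_
          have hi' : i + 1 ≤ 625 := by have := Finset.mem_range.1 hi; omega
          have hi2 : ((i + 1 : ℕ) : ℝ) ≤ 625 := by exact_mod_cast hi'
          exact rpow_quarter (by positivity) (by norm_num) (by linarith)
      _ = 3125 := by simp; norm_num
  have h6 : S 624 (1 / 4) ≤ 1953125 := by
    unfold S
    calc ∑ i ∈ range (624 + 1), ∑ j ∈ range (624 + 1),
          (if i ≠ j then (((i - j) + (j - i) : ℕ) : ℝ) ^ (1 / 4 : ℝ) else 0)
        ≤ ∑ _i ∈ range (624 + 1), ∑ _j ∈ range (624 + 1), (5 : ℝ) := by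
          refine Finset.sum_le_sum fun i hi => Finset.sum_le_sum fun j hj => ?_
          have hi' := Finset.mem_range.1 hi
          have hj' := Finset.mem_range.1 hj
          split_ifs
          · have hi2 : (((i - j) + (j - i) : ℕ) : ℝ) ≤ 625 := by
              have : (i - j) + (j - i) ≤ 625 := by omega
              exact_mod_cast this
            exact rpow_quarter (Nat.cast_nonneg _) (by norm_num) (by linarith)
          · norm_num
      _ = 1953125 := by simp; norm_num
  linarith

theorem at_three_quarters :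
    szeged (gr 10000 624) (3 / 4) - wiener (gr 10000 624) (3 / 4) < 0 := by
  rw [diff_eq]
  have h1 : (4 : ℝ) ^ (3 / 4 : ℝ) ≤ 283 / 100 := by
    have h := rpow_quarter (x := 4 ^ 3) (y := 283 / 100) (by norm_num) (by norm_num) (by norm_num)
    calc (4 : ℝ) ^ (3 / 4 : ℝ) = ((4 : ℝ) ^ 3) ^ (1 / 4 : ℝ) := by
          rw [← Real.rpow_natCast, ← Real.rpow_mul (by norm_num)]
          norm_num
      _ ≤ 283 / 100 := h
  have h2 : (0 : ℝ) ≤ 2 ^ (3 / 4 : ℝ) := by positivity
  have h3 : (626 : ℝ) ^ (3 / 4 : ℝ) ≤ 216 := by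
    have := rpow_three_le (x := 626) (y := 6) (by norm_num) (by norm_num) (by norm_num)
    linarith
  have h4 : R 10000 624 (3 / 4) ≤ 134784000 := by
    unfold R
    calc ∑ i ∈ range 624, (((2 * 10000 + i + 1 : ℕ) : ℝ) * ((624 - i : ℕ) : ℝ)) ^ (3 / 4 : ℝ)
        ≤ ∑ _i ∈ range 624, (216000 : ℝ) := by
          refine Finset.sum_le_sum fun i hi => ?_
          have hi' := Finset.mem_range.1 hi
          have e1 : ((2 * 10000 + i + 1 : ℕ) : ℝ) ≤ 20736 := by
            have : 2 * 10000 + i + 1 ≤ 20736 := by omega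
            exact_mod_cast this
          have e2 : ((624 - i : ℕ) : ℝ) ≤ 625 := by
            have : 624 - i ≤ 625 := by omega
            exact_mod_cast this
          have e3 : ((2 * 10000 + i + 1 : ℕ) : ℝ) * ((624 - i : ℕ) : ℝ) ≤ 60 ^ 4 := by
            calc ((2 * 10000 + i + 1 : ℕ) : ℝ) * ((624 - i : ℕ) : ℝ) ≤ 20736 * 625 :=
                  mul_le_mul e1 e2 (by positivity) (by norm_num)
              _ ≤ 60 ^ 4 := by norm_num
          have := rpow_three_le (x := ((2 * 10000 + i + 1 : ℕ) : ℝ) * ((624 - i : ℕ) : ℝ)) (y := 60)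
            (by positivity) (by norm_num) e3
          linarith
      _ = 134784000 := by simp; norm_num
  have h5 : 39125 ≤ T 624 (3 / 4) := by
    unfold T
    calc (39125 : ℝ) = ∑ i ∈ range (624 + 1), ((i + 1 : ℕ) : ℝ) / 5 := by
          rw [← Finset.sum_div, ← Nat.cast_sum]
          have : ∑ i ∈ range (624 + 1), (i + 1) = 195625 := by decide +kernel
          rw [this]
          norm_num
      _ ≤ ∑ i ∈ range (624 + 1), ((i + 1 : ℕ) : ℝ) ^ (3 / 4 : ℝ) := by
          refine Finset.sum_le_sum fun i hi => ?_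
          have hi' : i + 1 ≤ 625 := by have := Finset.mem_range.1 hi; omega
          have hi2 : ((i + 1 : ℕ) : ℝ) ≤ 625 := by exact_mod_cast hi'
          have e1 : ((i + 1 : ℕ) : ℝ) ^ (1 / 4 : ℝ) ≤ 5 :=
            rpow_quarter (by positivity) (by norm_num) (by linarith)
          have e2 : ((i + 1 : ℕ) : ℝ) = ((i + 1 : ℕ) : ℝ) ^ (3 / 4 : ℝ) *
              ((i + 1 : ℕ) : ℝ) ^ (1 / 4 : ℝ) := by
            rw [← Real.rpow_add (by positivity)]
            norm_num
          have e3 : (0 : ℝ) ≤ ((i + 1 : ℕ) : ℝ) ^ (3 / 4 : ℝ) := by positivity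
          nlinarith
  have h6 := S_nonneg 624 (3 / 4)
  linarith

theorem at_one : 0 < szeged (gr 10000 624) 1 - wiener (gr 10000 624) 1 := by
  rw [diff_eq]
  have h4 : 3900000000 ≤ R 10000 624 1 := by
    unfold R
    have h : ∑ i ∈ range 624, (2 * 10000 + i + 1) * (624 - i) ≥ 3900000000 := by decide +kernel
    calc (3900000000 : ℝ) ≤ ((∑ i ∈ range 624, (2 * 10000 + i + 1) * (624 - i) : ℕ) : ℝ) := by
          exact_mod_cast h
      _ = ∑ i ∈ range 624, (((2 * 10000 + i + 1 : ℕ) : ℝ) * ((624 - i : ℕ) : ℝ)) ^ (1 : ℝ) := by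
          rw [Nat.cast_sum]
          refine Finset.sum_congr rfl fun i _ => ?_
          rw [Real.rpow_one, Nat.cast_mul]
  have h5 : T 624 1 = 195625 := by
    unfold T
    have : ∑ i ∈ range (624 + 1), (i + 1) = 195625 := by decide +kernel
    calc ∑ i ∈ range (624 + 1), ((i + 1 : ℕ) : ℝ) ^ (1 : ℝ)
        = ((∑ i ∈ range (624 + 1), (i + 1) : ℕ) : ℝ) := by
          rw [Nat.cast_sum]
          refine Finset.sum_congr rfl fun i _ => ?_
          rw [Real.rpow_one]
      _ = 195625 := by rw [this]; norm_num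
  have h6 : S 624 1 ≤ 244140625 := by
    unfold S
    calc ∑ i ∈ range (624 + 1), ∑ j ∈ range (624 + 1),
          (if i ≠ j then (((i - j) + (j - i) : ℕ) : ℝ) ^ (1 : ℝ) else 0)
        ≤ ∑ _i ∈ range (624 + 1), ∑ _j ∈ range (624 + 1), (625 : ℝ) := by
          refine Finset.sum_le_sum fun i hi => Finset.sum_le_sum fun j hj => ?_
          have hi' := Finset.mem_range.1 hi
          have hj' := Finset.mem_range.1 hj
          split_ifs
          · rw [Real.rpow_one]
            have : (i - j) + (j - i) ≤ 625 := by omega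
            exact_mod_cast this
          · norm_num
      _ = 244140625 := by simp; norm_num
  rw [h5, Real.rpow_one, Real.rpow_one, Real.rpow_one]
  linarith

/-- There is a connected, non-complete graph `G` for which `Sz^α(G) = W^α(G)` holds for three
different real numbers `α`. -/
theorem result : ∃ (V : Type) (_ : Fintype V) (G : SimpleGraph V), G.Connected ∧ G ≠ ⊤ ∧
    ∃ α β γ : ℝ, 0 < α ∧ α < β ∧ β < γ ∧ γ < 1 ∧ szeged G α = wiener G α ∧
      szeged G β = wiener G β ∧ szeged G γ = wiener G γ := by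
  have hc := cont (gr 10000 624) (dist_gr 10000 624).1
  have hne : Nonempty (Vtx 10000 624) := ⟨.inr 0⟩
  refine ⟨Vtx 10000 624, inferInstance, gr 10000 624, ⟨(dist_gr _ _).1⟩, ?_, ?_⟩
  · intro h
    have h1 : (gr 10000 624).Adj (.inl (0, true)) (.inl (0, false)) := by
      rw [h, SimpleGraph.top_adj]
      simp
    exact h1 rfl
  · obtain ⟨α, hα, hα0⟩ := intermediate_value_Ioo (show (0 : ℝ) ≤ 1 / 4 by norm_num)
      hc.continuousOn ⟨at_zero, at_quarter⟩
    obtain ⟨β, hβ, hβ0⟩ := intermediate_value_Ioo' (show (1 / 4 : ℝ) ≤ 3 / 4 by norm_num)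
      hc.continuousOn ⟨at_three_quarters, at_quarter⟩
    obtain ⟨γ, hγ, hγ0⟩ := intermediate_value_Ioo (show (3 / 4 : ℝ) ≤ 1 by norm_num)
      hc.continuousOn ⟨at_three_quarters, at_one⟩
    exact ⟨α, β, γ, hα.1, hα.2.trans hβ.1, hβ.2.trans hγ.1, hγ.2, sub_eq_zero.1 hα0,
      sub_eq_zero.1 hβ0, sub_eq_zero.1 hγ0⟩

end Pool.Agent.Results.MP_dd6dde_co.ThreeZeros
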